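import Pool.Agent.LE.StmtsQ

/-! LSC, row EDC: the cluster of a site near the edge is large (deterministic). -/

set_option autoImplicit false

open scoped BigOperators

noncomputable section

namespace Pool.Agent.LE.CL.H70

open Pool.Agent.Anderson Pool.Agent.Loc Pool.Agent.Mob Pool.Agent.Helper54.Bal
  Pool.Agent.Helper96.EXP Pool.Agent.BED Pool.Agent.LE.CL

variable {d : ℕ}

/-- the sequence of clusters -/
def Sq (V : Site d → ℝ) (Λ : Finset (Site d)) (E s : ℝ) (b : Site d) (R : ℕ) :
    ℕ → Finset (Site d)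
  | 0 => {b}
  | j + 1 => clu V Λ E s (Sq V Λ E s b R j) (box b (j * R + R))

variable {V : Site d → ℝ} {Λ : Finset (Site d)} {E s : ℝ} {b : Site d} {R : ℕ}

theorem Sq_sub (j : ℕ) : Sq V Λ E s b R j ⊆ Sq V Λ E s b R (j + 1) := by
  intro y hy
  show y ∈ clu V Λ E s (Sq V Λ E s b R j) (box b (j * R + R))
  rw [mem_clu]
  exact Or.inl hy

theorem Sq_box (j : ℕ) : Sq V Λ E s b R j ⊆ box b (j * R) := by
  induction j with
  | zero =>
    intro y hy
    have h1 : y = b := Finset.mem_singleton.mp hy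
    rw [h1, mem_box, sd_self]
    exact Nat.zero_le _
  | succ j ih =>
    intro y hy
    have h1 : y ∈ clu V Λ E s (Sq V Λ E s b R j) (box b (j * R + R)) := hy
    have h2 : (j + 1) * R = j * R + R := by ring
    rw [h2]
    rw [mem_clu] at h1
    rcases h1 with h1 | h1
    · exact box_mono b (Nat.le_add_right _ _) (ih h1)
    · exact h1.1

theorem Sq_mem (j : ℕ) : b ∈ Sq V Λ E s b R j := by
  induction j with
  | zero => exact Finset.mem_singleton_self b
  | succ j ih => exact Sq_sub j ih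

theorem Sq_rch {J : ℕ} (j : ℕ) (hj : j ≤ J) :
    Sq V Λ E s b R j ⊆ rch V Λ E s b (J * R) j := by
  induction j with
  | zero => rw [rch_zero]; exact fun _ h => h
  | succ j ih =>
    rw [rch_succ]
    refine clu_mono (ih (by omega)) (box_mono b ?_)
    calc j * R + R = (j + 1) * R := by ring
      _ ≤ J * R := Nat.mul_le_mul_right R hj

/-- row EDC -/
theorem edc (hCut : CutStmt) (hEcl : EclStmt) : EdcStmt := by
  intro d M' J R₁ m _ V Λ E s z μ lam G b hd hμ hlm hE hlam hG hJ hR hM hF hΛ hdet hgr h2J hs hexp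
  obtain ⟨ω', hω', heq'⟩ := Pool.Agent.LE.H60Z.Cde.landscape (W := fun y => V (b + y)) hμ hF
  have hlam0 : 0 < lam := by
    by_contra h
    have := mul_nonpos_of_nonpos_of_nonneg (not_lt.mp h) hμ.le
    linarith
  have heq : ∀ x ∈ box b (J * R₁),
      (z - V x) * (fun x => ω' (x - b)) x - nb (fun x => ω' (x - b)) x = 1 / μ := by
    intro x hx
    have h1 : ∀ i, 2 * |(x - b) i| < (M' : ℤ) := by
      intro i
      have h3 : sd b x ≤ J * R₁ := mem_box.mp hx
      have h4 : (b i - x i).natAbs ≤ sd b x :=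
        Finset.le_sup (f := fun i => (b i - x i).natAbs) (Finset.mem_univ i)
      have h5 : |(x - b) i| = ((b i - x i).natAbs : ℤ) := by
        rw [Pi.sub_apply, Int.natCast_natAbs, abs_sub_comm]
      rw [h5]
      have h6 : (b i - x i).natAbs ≤ J * R₁ := h4.trans h3
      have h7 : 2 * (b i - x i).natAbs < M' := by omega
      exact_mod_cast h7
    have h2 := heq' (x - b) h1
    have h3 : b + (x - b) = x := by abel
    simp only [h3] at h2
    show (z - V x) * ω' (x - b) - nb (fun x => ω' (x - b)) x = 1 / μ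
    rw [← h2]
    congr 1
    unfold nb
    refine Finset.sum_congr rfl fun i _ => ?_
    have h4 : x + Pi.single i 1 - b = x - b + Pi.single i 1 := by abel
    have h5 : x - Pi.single i 1 - b = x - b - Pi.single i 1 := by abel
    simp only [h4, h5]
  -- pigeonhole
  have hpig : ∃ j, j < J ∧ (Sq V Λ E s b R₁ (j + 1)).card ≤ 2 * (Sq V Λ E s b R₁ j).card := by
    by_contra hcon
    push Not at hcon
    have h1 : ∀ j, j ≤ J → 2 ^ j ≤ (Sq V Λ E s b R₁ j).card := by
      intro j
      induction j with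
      | zero =>
        intro _
        have : (Sq V Λ E s b R₁ 0).card = 1 := Finset.card_singleton b
        rw [this]
        norm_num
      | succ j ih =>
        intro hj
        have h2 := ih (by omega)
        have h3 := hcon j (by omega)
        rw [pow_succ]
        omega
    have h2 := h1 J le_rfl
    have h3 := Finset.card_le_card (Sq_box (V := V) (Λ := Λ) (E := E) (s := s) (b := b) (R := R₁) J)
    rw [card_box] at h3
    omega
  obtain ⟨j, hjJ, hj⟩ := hpig
  have hle : j * R₁ + R₁ ≤ J * R₁ := by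
    calc j * R₁ + R₁ = (j + 1) * R₁ := by ring
      _ ≤ J * R₁ := Nat.mul_le_mul_right R₁ hjJ
  have hle' : ((j * R₁ + R₁ : ℕ) : ℝ) ≤ ((J * R₁ : ℕ) : ℝ) := by exact_mod_cast hle
  have h0 : (0 : ℝ) ≤ ((j * R₁ + R₁ : ℕ) : ℝ) := Nat.cast_nonneg _
  have hd' : (1 : ℝ) ≤ d := by exact_mod_cast hd
  have hm0 : (0 : ℝ) ≤ (m : ℝ) := Nat.cast_nonneg m
  have hden : (1 : ℝ) ≤ 50 * d * (2 * (m : ℝ) + 1) := by nlinarith
  have hden0 : (0 : ℝ) < 50 * d * (2 * (m : ℝ) + 1) := by linarith
  obtain ⟨χ, ψ, e, hEC⟩ := hCut d V (fun x => ω' (x - b)) Λ (Sq V Λ E s b R₁ j) b (j * R₁) R₁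
    z E lam (1 / (50 * d * (2 * (m : ℝ) + 1))) (1 / μ) s G hd (fun x => hω' _)
    (by positivity) (by rw [div_le_iff₀ hμ]; exact hlm)
    (fun x hx => heq x (box_mono b hle hx)) (by positivity)
    (by rw [div_le_one hden0]; exact hden) hE ⟨b, Sq_mem j⟩ (Sq_box j)
    (fun x hx => hΛ (box_mono b (by omega) hx)) hdet hG
    (fun x hx y hy => hgr x (box_mono b (by omega) hx) y (box_mono b (by omega) hy)) hj
    (by
      refine le_trans (mul_le_mul_of_nonneg_left (pow_le_pow_left₀ (by positivity) ?_ _)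
        (by norm_num)) hs
      linarith)
    (by
      have h3 : (2 * ((j * R₁ + R₁ : ℕ) : ℝ) + 3) ^ (2 * d) ≤
          (2 * ((J * R₁ : ℕ) : ℝ) + 3) ^ (2 * d) :=
        pow_le_pow_left₀ (by positivity) (by linarith) _
      have h4 : 300 * d * (2 * ((j * R₁ + R₁ : ℕ) : ℝ) + 3) ^ (2 * d) * G ≤
          300 * d * (2 * ((J * R₁ : ℕ) : ℝ) + 3) ^ (2 * d) * G := by
        refine mul_le_mul_of_nonneg_right (mul_le_mul_of_nonneg_left h3 (by positivity))
          (by linarith)
      refine h4.trans (hexp.trans (le_of_eq ?_))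
      congr 1
      rw [div_mul_eq_mul_div, one_mul])
  have h5 := hEcl d V _ χ ψ e (Sq V Λ E s b R₁ j) _ b (j * R₁ + R₁) m z E lam
    (1 / (50 * d * (2 * (m : ℝ) + 1))) (1 / μ) hd hEC hlam
    (by
      have h6 : (0 : ℝ) < 2 * (m : ℝ) + 1 := by linarith
      rw [div_mul_eq_mul_div, one_mul, div_le_div_iff₀ hden0 (by linarith)]
      linarith)
  refine h5.trans (Nat.mul_le_mul_left 4 (Finset.card_le_card ?_))
  exact (Sq_rch (J := J) (j + 1) hjJ).trans (rch_mono hjJ)

end Pool.Agent.LE.CL.H70
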