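import Pool.Agent.LE.StmtsQ

/-! LSC, row ENB: the energy bound for a cluster function near the edge. -/

set_option autoImplicit false

open scoped BigOperators

noncomputable section

namespace Pool.Agent.LE.CL.H70

open Pool.Agent.Anderson Pool.Agent.Loc Pool.Agent.Mob Pool.Agent.Helper54.Bal
  Pool.Agent.Helper96.EXP Pool.Agent.BED Pool.Agent.LE.CL

variable {d : ℕ}

/-- a sum over a larger set of a function which vanishes outside the smaller one -/
theorem sum_sq_big {f : Site d → ℝ} {b : Site d} {r : ℕ} (hf : ∀ x, x ∉ box b r → f x = 0) :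
    ∑ x ∈ box b (r + 1), f x ^ 2 = ∑ x ∈ box b r, f x ^ 2 := by
  symm
  refine Finset.sum_subset (box_mono b (Nat.le_succ r)) fun x _ hx => ?_
  rw [hf x hx]
  norm_num

/-- the shifted sum -/
theorem sum_sq_shift {f : Site d → ℝ} {b : Site d} {r : ℕ} (hf : ∀ x, x ∉ box b r → f x = 0)
    (a : Site d) (T : Finset (Site d)) :
    ∑ x ∈ T, f (x + a) ^ 2 ≤ ∑ x ∈ box b r, f x ^ 2 := by
  classical
  have h1 : ∑ x ∈ T, f (x + a) ^ 2 = ∑ y ∈ T.map (addRightEmbedding a), f y ^ 2 := by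
    rw [Finset.sum_map]
    rfl
  rw [h1]
  have h2 : ∑ y ∈ T.map (addRightEmbedding a), f y ^ 2 =
      ∑ y ∈ (T.map (addRightEmbedding a)).filter (fun y => y ∈ box b r), f y ^ 2 := by
    rw [Finset.sum_filter]
    refine Finset.sum_congr rfl fun y _ => ?_
    split_ifs with h
    · rfl
    · rw [hf y h]
      norm_num
  rw [h2]
  refine Finset.sum_le_sum_of_subset_of_nonneg ?_ fun _ _ _ => sq_nonneg _
  intro y hy
  exact (Finset.mem_filter.mp hy).2

/-- `ρ + 1/ρ - 2 ≤ 1.11 κ²` -/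
theorem ratio_bound {κ ρ : ℝ} (hκ0 : 0 ≤ κ) (hκ1 : κ ≤ 1) (h1 : ρ ≤ Real.exp κ)
    (h2 : 1 ≤ Real.exp κ * ρ) (hρ : 0 < ρ) :
    0 ≤ ρ + 1 / ρ - 2 ∧ ρ + 1 / ρ - 2 ≤ 1.11 * κ ^ 2 := by
  have hE := Real.exp_pos κ
  constructor
  · have h3 : ρ + 1 / ρ - 2 = (ρ - 1) ^ 2 / ρ := by
      field_simp
      ring
    rw [h3]
    positivity
  · -- convexity: ρ + 1/ρ ≤ e^κ + e^-κ
    have h3 : ρ + 1 / ρ ≤ Real.exp κ + Real.exp (-κ) := by
      rw [Real.exp_neg]
      have h4 : (Real.exp κ + (Real.exp κ)⁻¹) - (ρ + 1 / ρ) =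
          (Real.exp κ - ρ) * (Real.exp κ * ρ - 1) / (Real.exp κ * ρ) := by
        field_simp
        ring
      have h5 : 0 ≤ (Real.exp κ - ρ) * (Real.exp κ * ρ - 1) / (Real.exp κ * ρ) :=
        div_nonneg (mul_nonneg (by linarith) (by linarith)) (by positivity)
      linarith
    have h6 : Real.exp κ + Real.exp (-κ) ≤ 2 + 1.11 * κ ^ 2 := by
      have h7 := Real.exp_bound' hκ0 hκ1 (n := 4) (by norm_num)
      have h8 : |Real.exp (-κ) - ∑ m ∈ Finset.range 4, (-κ) ^ m / m.factorial| ≤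
          |(-κ)| ^ 4 * (((4 : ℕ).succ : ℝ) / ((4 : ℕ).factorial * (4 : ℕ))) :=
        Real.exp_bound (by rw [abs_neg, abs_of_nonneg hκ0]; exact hκ1) (by norm_num)
      have h9 := (abs_le.mp h8).2
      rw [abs_neg, abs_of_nonneg hκ0] at h9
      simp only [Finset.sum_range_succ, Finset.sum_range_zero, Nat.factorial] at h7 h9
      norm_num at h7 h9
      have h10 : κ ^ 4 ≤ κ ^ 2 := pow_le_pow_of_le_one hκ0 hκ1 (by norm_num)
      nlinarith
    linarith

/-- the numbers -/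
theorem enb_num {a D P S β : ℝ} (hP0 : 0 ≤ P) (hS1 : 1 ≤ S) (ha1 : 1 ≤ a) (hβ0 : 0 ≤ β)
    (haβ : a * β ≤ 1 / 5) (hmain : 0.96 * D ≤ β * P ^ 2 + 1.03 * (S * P))
    (hP2D : P ^ 2 ≤ 2.0808 * a * D + 0.00045) : P ≤ 5 * a * S ∧ D ≤ 12 * (a * S ^ 2) := by
  have haS : 1 ≤ a * S := by
    have h := mul_le_mul ha1 hS1 zero_le_one (by linarith only [ha1])
    linarith only [h]
  have hP5 : P ≤ 5 * a * S := by
    by_contra hcon
    push Not at hcon
    have h1 : 5 < P := by linarith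
    have h2 : 0.96 * P ^ 2 ≤ 2.0808 * (a * β * P ^ 2 + 1.03 * (a * S * P)) + 0.00045 := by
      have h3 : a * (0.96 * D) ≤ a * (β * P ^ 2 + 1.03 * (S * P)) :=
        mul_le_mul_of_nonneg_left hmain (by linarith)
      have h5 : a * (β * P ^ 2 + 1.03 * (S * P)) = a * β * P ^ 2 + 1.03 * (a * S * P) := by ring
      rw [h5] at h3
      linarith
    have h3 : a * β * P ^ 2 ≤ 1 / 5 * P ^ 2 := mul_le_mul_of_nonneg_right haβ (sq_nonneg _)
    have h4 : a * S * P ≤ P / 5 * P := by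
      refine mul_le_mul_of_nonneg_right ?_ hP0
      linarith
    have h6 : P / 5 * P = P ^ 2 / 5 := by ring
    rw [h6] at h4
    have h7 : 5 * 5 ≤ P * P := mul_le_mul h1.le h1.le (by norm_num) hP0
    have h8 : P ^ 2 = P * P := sq P
    rw [h8] at h2 h3 h4
    linarith only [h2, h3, h4, h7]
  refine ⟨hP5, ?_⟩
  have h1 : β * P ^ 2 ≤ 5 * (a * S ^ 2) := by
    have h2 : β * P ^ 2 ≤ β * (5 * a * S) ^ 2 :=
      mul_le_mul_of_nonneg_left (pow_le_pow_left₀ hP0 hP5 2) hβ0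
    have h3 : β * (5 * a * S) ^ 2 = 25 * ((a * β) * (a * S ^ 2)) := by ring
    have h4 : (a * β) * (a * S ^ 2) ≤ 1 / 5 * (a * S ^ 2) :=
      mul_le_mul_of_nonneg_right haβ (by positivity)
    linarith
  have h2 : S * P ≤ 5 * (a * S ^ 2) := by
    have h3 : S * P ≤ S * (5 * a * S) := mul_le_mul_of_nonneg_left hP5 (by linarith)
    have h4 : S * (5 * a * S) = 5 * (a * S ^ 2) := by ring
    linarith
  have : 0 ≤ a * S ^ 2 := by positivity
  linarith

/-- row ENB -/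
theorem enb (hS : SbpStmt) (hF : FkiStmt) (hN : EniStmt) : EnbStmt := by
  intro d V ω χ ψ e C C' b r m z E lam κ k hd hEC hC4 hcond
  have hd' : (1 : ℝ) ≤ d := by exact_mod_cast hd
  have hω1 : ∀ x, 0.98 ≤ ω x ∧ ω x ≤ 1.02 := by
    intro x
    have := abs_le.mp (hEC.hω x)
    constructor
    · linarith only [this.1]
    · linarith only [this.2]
  have hω0 : ∀ x, 0 < ω x := fun x => by have := (hω1 x).1; linarith only [this]
  -- the function φ
  obtain ⟨φ, hφ⟩ : ∃ φ : Site d → ℝ, φ = fun x => ψ x / ω x := ⟨_, rfl⟩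
  have hψφ : ∀ x, ψ x = ω x * φ x := fun x => by
    rw [hφ]
    have := (hω0 x).ne'
    field_simp
  have hφ0 : ∀ x, x ∉ box b r → φ x = 0 := fun x hx => by
    rw [hφ]
    show ψ x / ω x = 0
    rw [hEC.hψ x hx, zero_div]
  have hχ := hEC.hχ
  obtain ⟨hκ0, hκ1⟩ := hEC.hκ
  obtain ⟨hk0, hklam⟩ := hEC.hk
  obtain ⟨hCne, hCC', hC'b, hCcard⟩ := hEC.hC
  have hCb : C ⊆ box b r := hCC'.trans hC'b
  have hlam0 : 0 ≤ lam := hk0.trans hklam
  -- notation
  obtain ⟨P2, hP2⟩ : ∃ P2 : ℝ, P2 = ∑ x ∈ box b r, ψ x ^ 2 := ⟨_, rfl⟩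
  obtain ⟨D, hD⟩ : ∃ D : ℝ, D = gd φ (box b (r + 1)) := ⟨_, rfl⟩
  obtain ⟨P, hP⟩ : ∃ P : ℝ, P = Real.sqrt P2 := ⟨_, rfl⟩
  obtain ⟨S, hSd⟩ : ∃ S : ℝ, S = Real.sqrt C.card := ⟨_, rfl⟩
  have hP20 : 0 ≤ P2 := by rw [hP2]; exact Finset.sum_nonneg fun _ _ => sq_nonneg _
  have hP0 : 0 ≤ P := by rw [hP]; exact Real.sqrt_nonneg _
  have hPP : P ^ 2 = P2 := by rw [hP]; exact Real.sq_sqrt hP20
  have hS0 : 0 ≤ S := by rw [hSd]; exact Real.sqrt_nonneg _
  have hSS : S ^ 2 = C.card := by rw [hSd]; exact Real.sq_sqrt (Nat.cast_nonneg _)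
  have hS1 : 1 ≤ S := by
    rw [hSd]
    rw [Real.one_le_sqrt]
    have : 1 ≤ C.card := Finset.card_pos.mpr hCne
    exact_mod_cast this
  have hD0 : 0 ≤ D := by
    rw [hD]
    exact Finset.sum_nonneg fun _ _ => Finset.sum_nonneg fun _ _ => sq_nonneg _
  have hψle : ∀ x, |ψ x| ≤ P := by
    intro x
    by_cases hx : x ∈ box b r
    · rw [hP]
      apply Real.abs_le_sqrt
      rw [hP2]
      exact Finset.single_le_sum (f := fun x => ψ x ^ 2) (fun _ _ => sq_nonneg _) hx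
    · rw [hEC.hψ x hx, abs_zero]
      exact hP0
  -- the identity
  have hI := hN d V ω φ b r z k hφ0 hEC.hωe
  have hLHS : ∑ x ∈ box b r, ω x * φ x * ((z - V x) * (ω x * φ x) - nb (fun y => ω y * φ y) x) =
      (z - E) * P2 + ∑ x ∈ box b r, (if x ∈ C then ω x * ψ x else 0) +
      ∑ x ∈ box b r, ∑ i : Fin d, (ψ x * (χ x / χ (x + Pi.single i 1) - 1) * ψ (x + Pi.single i 1) +
        ψ x * (χ x / χ (x - Pi.single i 1) - 1) * ψ (x - Pi.single i 1)) +
      ∑ x ∈ box b r, ψ x * e x := by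
    have h1 : (fun y => ω y * φ y) = ψ := by
      funext y
      rw [hψφ y]
    rw [h1, hP2, Finset.mul_sum, ← Finset.sum_add_distrib, ← Finset.sum_add_distrib,
      ← Finset.sum_add_distrib]
    refine Finset.sum_congr rfl fun x hx => ?_
    have h2 := hEC.heq x (box_mono b (Nat.le_succ r) hx)
    have h3 : (z - V x) * ψ x - nb ψ x = (z - E) * ψ x + ((E - V x) * ψ x - nb ψ x) := by ring
    rw [← hψφ x, h3, h2]
    have h4 : ∑ i : Fin d, (ψ x * (χ x / χ (x + Pi.single i 1) - 1) * ψ (x + Pi.single i 1) +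
        ψ x * (χ x / χ (x - Pi.single i 1) - 1) * ψ (x - Pi.single i 1)) =
        ψ x * ∑ i : Fin d, ((χ x / χ (x + Pi.single i 1) - 1) * ψ (x + Pi.single i 1) +
          (χ x / χ (x - Pi.single i 1) - 1) * ψ (x - Pi.single i 1)) := by
      rw [Finset.mul_sum]
      refine Finset.sum_congr rfl fun i _ => ?_
      ring
    rw [h4]
    split_ifs
    · ring
    · ring
  -- bounds of the terms
  have hT1 : (z - E) * P2 ≤ lam * P2 := by
    refine mul_le_mul_of_nonneg_right ?_ hP20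
    have := (abs_le.mp hEC.hE).1
    linarith only [this]
  have hT2 : ∑ x ∈ box b r, (if x ∈ C then ω x * ψ x else 0) ≤ 1.02 * (S * P) := by
    have h1 : ∑ x ∈ box b r, (if x ∈ C then ω x * ψ x else 0) = ∑ x ∈ C, ω x * ψ x := by
      rw [← Finset.sum_filter]
      congr 1
      ext x
      rw [Finset.mem_filter]
      exact ⟨fun h => h.2, fun h => ⟨hCb h, h⟩⟩
    rw [h1]
    have h2 : ∑ x ∈ C, ω x * ψ x ≤ 1.02 * ∑ x ∈ C, |ψ x| := by
      rw [Finset.mul_sum]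
      refine Finset.sum_le_sum fun x _ => ?_
      calc ω x * ψ x ≤ ω x * |ψ x| := mul_le_mul_of_nonneg_left (le_abs_self _) (hω0 x).le
        _ ≤ 1.02 * |ψ x| := mul_le_mul_of_nonneg_right (hω1 x).2 (abs_nonneg _)
    have h3 : (∑ x ∈ C, |ψ x|) ^ 2 ≤ (S * P) ^ 2 := by
      calc (∑ x ∈ C, |ψ x|) ^ 2 ≤ C.card * ∑ x ∈ C, |ψ x| ^ 2 := sq_sum_le_card_mul_sum_sq
        _ ≤ C.card * P2 := by
            refine mul_le_mul_of_nonneg_left ?_ (Nat.cast_nonneg _)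
            rw [hP2]
            simp only [sq_abs]
            exact Finset.sum_le_sum_of_subset_of_nonneg hCb fun _ _ _ => sq_nonneg _
        _ = (S * P) ^ 2 := by rw [mul_pow, hSS, hPP]
    have h4 : ∑ x ∈ C, |ψ x| ≤ S * P :=
      abs_le_of_sq_le_sq' h3 (mul_nonneg hS0 hP0) |>.2
    linarith only [h2, h4]
  have hT4 : ∑ x ∈ box b r, ψ x * e x ≤ 0.01 * P := by
    calc ∑ x ∈ box b r, ψ x * e x ≤ ∑ x ∈ box b r, P * |e x| := by
          refine Finset.sum_le_sum fun x _ => ?_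
          calc ψ x * e x ≤ |ψ x * e x| := le_abs_self _
            _ = |ψ x| * |e x| := abs_mul _ _
            _ ≤ P * |e x| := mul_le_mul_of_nonneg_right (hψle x) (abs_nonneg _)
      _ = P * ∑ x ∈ box b r, |e x| := by rw [Finset.mul_sum]
      _ ≤ P * ∑ x ∈ box b (r + 1), |e x| := by
          refine mul_le_mul_of_nonneg_left ?_ hP0
          exact Finset.sum_le_sum_of_subset_of_nonneg (box_mono b (Nat.le_succ r))
            fun _ _ _ => abs_nonneg _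
      _ ≤ P * (1 / 100) := mul_le_mul_of_nonneg_left hEC.he hP0
      _ = 0.01 * P := by ring
  have hT3 : ∑ x ∈ box b r, ∑ i : Fin d,
      (ψ x * (χ x / χ (x + Pi.single i 1) - 1) * ψ (x + Pi.single i 1) +
        ψ x * (χ x / χ (x - Pi.single i 1) - 1) * ψ (x - Pi.single i 1)) ≤
      1.11 * d * κ ^ 2 * P2 := by
    have h1 := (hS d (fun x y => ψ x * (χ x / χ y - 1) * ψ y) b r
      (fun x hx y => by rw [hEC.hψ x hx]; ring)).1
    rw [h1]
    have h2 : ∀ x (i : Fin d), ψ x * (χ x / χ (x + Pi.single i 1) - 1) * ψ (x + Pi.single i 1) +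
        ψ (x + Pi.single i 1) * (χ (x + Pi.single i 1) / χ x - 1) * ψ x ≤
        1.11 * κ ^ 2 * ((ψ x ^ 2 + ψ (x + Pi.single i 1) ^ 2) / 2) := by
      intro x i
      have hx := hχ x
      have hy := hχ (x + Pi.single i 1)
      obtain ⟨n1, n2⟩ := hEC.hχn x i
      obtain ⟨q, hq⟩ : ∃ q : ℝ, q = χ (x + Pi.single i 1) / χ x := ⟨_, rfl⟩
      have hq0 : 0 < q := by rw [hq]; positivity
      have hq1 : q ≤ Real.exp κ := by
        rw [hq, div_le_iff₀ hx]
        exact n1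
      have hq2 : 1 ≤ Real.exp κ * q := by
        rw [hq, ← mul_div_assoc, le_div_iff₀ hx, one_mul]
        exact n2
      obtain ⟨g1, g2⟩ := ratio_bound hκ0 hκ1 hq1 hq2 hq0
      have hinv : χ x / χ (x + Pi.single i 1) = 1 / q := by
        rw [hq, one_div_div]
      have h3 : ψ x * (χ x / χ (x + Pi.single i 1) - 1) * ψ (x + Pi.single i 1) +
          ψ (x + Pi.single i 1) * (χ (x + Pi.single i 1) / χ x - 1) * ψ x =
          (q + 1 / q - 2) * (ψ x * ψ (x + Pi.single i 1)) := by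
        rw [hinv, ← hq]
        ring
      rw [h3]
      have h4 : ψ x * ψ (x + Pi.single i 1) ≤ (ψ x ^ 2 + ψ (x + Pi.single i 1) ^ 2) / 2 := by
        linarith only [sq_nonneg (ψ x - ψ (x + Pi.single i 1))]
      have h5 : 0 ≤ (ψ x ^ 2 + ψ (x + Pi.single i 1) ^ 2) / 2 := by positivity
      calc (q + 1 / q - 2) * (ψ x * ψ (x + Pi.single i 1))
          ≤ (q + 1 / q - 2) * ((ψ x ^ 2 + ψ (x + Pi.single i 1) ^ 2) / 2) :=
            mul_le_mul_of_nonneg_left h4 g1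
        _ ≤ 1.11 * κ ^ 2 * ((ψ x ^ 2 + ψ (x + Pi.single i 1) ^ 2) / 2) :=
            mul_le_mul_of_nonneg_right g2 h5
    calc ∑ x ∈ box b (r + 1), ∑ i : Fin d,
        (ψ x * (χ x / χ (x + Pi.single i 1) - 1) * ψ (x + Pi.single i 1) +
          ψ (x + Pi.single i 1) * (χ (x + Pi.single i 1) / χ x - 1) * ψ x)
        ≤ ∑ x ∈ box b (r + 1), ∑ i : Fin d,
          1.11 * κ ^ 2 * ((ψ x ^ 2 + ψ (x + Pi.single i 1) ^ 2) / 2) :=
          Finset.sum_le_sum fun x _ => Finset.sum_le_sum fun i _ => h2 x i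
      _ = ∑ i : Fin d, 1.11 * κ ^ 2 * ((∑ x ∈ box b (r + 1), ψ x ^ 2 +
            ∑ x ∈ box b (r + 1), ψ (x + Pi.single i 1) ^ 2) / 2) := by
          rw [Finset.sum_comm]
          refine Finset.sum_congr rfl fun i _ => ?_
          rw [← Finset.mul_sum, ← Finset.sum_div, Finset.sum_add_distrib]
      _ ≤ ∑ _i : Fin d, 1.11 * κ ^ 2 * P2 := by
          refine Finset.sum_le_sum fun i _ => mul_le_mul_of_nonneg_left ?_ (by positivity)
          have h6 := sum_sq_big hEC.hψ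
          have h7 := sum_sq_shift hEC.hψ (Pi.single i 1) (box b (r + 1))
          rw [← hP2] at h6 h7
          rw [h6]
          linarith only [h7]
      _ = 1.11 * d * κ ^ 2 * P2 := by
          rw [Finset.sum_const, Finset.card_univ, Fintype.card_fin, nsmul_eq_mul]
          ring
  -- the right side
  have hR : 0.96 * D ≤ ∑ x ∈ box b (r + 1), ∑ i : Fin d,
      ω x * ω (x + Pi.single i 1) * (φ (x + Pi.single i 1) - φ x) ^ 2 := by
    rw [hD]
    unfold gd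
    rw [Finset.mul_sum]
    refine Finset.sum_le_sum fun x _ => ?_
    rw [Finset.mul_sum]
    refine Finset.sum_le_sum fun i _ => mul_le_mul_of_nonneg_right ?_ (sq_nonneg _)
    have h1 := (hω1 x).1
    have h2 := (hω1 (x + Pi.single i 1)).1
    have h3 := mul_le_mul h1 h2 (by norm_num) (hω0 x).le
    linarith only [h3]
  have hR2 : 0 ≤ k * ∑ x ∈ box b r, ω x * φ x ^ 2 :=
    mul_nonneg hk0 (Finset.sum_nonneg fun x _ => mul_nonneg (hω0 x).le (sq_nonneg _))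
  have hmain : 0.96 * D ≤ (lam + 1.11 * d * κ ^ 2) * P ^ 2 + 1.03 * (S * P) := by
    have h1 : 0.96 * D ≤ lam * P2 + 1.02 * (S * P) + 1.11 * d * κ ^ 2 * P2 + 0.01 * P := by
      linarith only [hI, hLHS, hR, hR2, hT1, hT2, hT3, hT4]
    have h2 : P ≤ S * P := le_mul_of_one_le_left hP0 hS1
    rw [hPP]
    have h3 : (lam + 1.11 * d * κ ^ 2) * P2 = lam * P2 + 1.11 * d * κ ^ 2 * P2 := by ring
    rw [h3]
    linarith only [h1, h2]
  -- Faber-Krahn
  have hFK := hF d φ b r m C' hd hφ0 hC4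
  rw [← hD] at hFK
  have hφψ : ∀ x, |φ x| ≤ |ψ x| / 0.98 := by
    intro x
    rw [hψφ x, abs_mul, abs_of_pos (hω0 x), le_div_iff₀ (by norm_num)]
    have h := mul_le_mul_of_nonneg_right (hω1 x).1 (abs_nonneg (φ x))
    linarith only [h]
  have hsmall : (∑ x ∈ box b r \ C', |φ x|) ^ 2 ≤ (0.0103) ^ 2 := by
    refine pow_le_pow_left₀ (Finset.sum_nonneg fun _ _ => abs_nonneg _) ?_ 2
    calc ∑ x ∈ box b r \ C', |φ x| ≤ ∑ x ∈ box b r \ C', |ψ x| / 0.98 :=
          Finset.sum_le_sum fun x _ => hφψ x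
      _ = (∑ x ∈ box b r \ C', |ψ x|) / 0.98 := by rw [Finset.sum_div]
      _ ≤ (1 / 100) / 0.98 := by
          refine div_le_div_of_nonneg_right hEC.hψC (by norm_num)
      _ ≤ 0.0103 := by norm_num
  have hP2φ : P2 ≤ 1.0404 * ∑ x ∈ box b r, φ x ^ 2 := by
    rw [hP2, Finset.mul_sum]
    refine Finset.sum_le_sum fun x _ => ?_
    rw [hψφ x, mul_pow]
    refine mul_le_mul_of_nonneg_right ?_ (sq_nonneg _)
    have h1 := pow_le_pow_left₀ (hω0 x).le (hω1 x).2 2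
    linarith only [h1]
  obtain ⟨a, ha⟩ : ∃ a : ℝ, a = d * (2 * (m : ℝ) + 1) ^ 2 := ⟨_, rfl⟩
  have hm0 : (0 : ℝ) ≤ (m : ℝ) := Nat.cast_nonneg m
  have ha1 : 1 ≤ a := by
    rw [ha]
    have h1 : (1 : ℝ) ≤ (2 * (m : ℝ) + 1) ^ 2 := one_le_pow₀ (by linarith only [hm0])
    have h2 := mul_le_mul hd' h1 zero_le_one (by linarith only [hd'])
    linarith only [h2]
  have hP2D : P ^ 2 ≤ 2.0808 * a * D + 0.00045 := by
    rw [hPP]
    have h1 : 2 * d * (2 * (m : ℝ) + 1) ^ 2 * D = 2 * a * D := by rw [ha]; ring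
    rw [h1] at hFK
    have h2 : 1.0404 * ∑ x ∈ box b r, φ x ^ 2 ≤
        1.0404 * (2 * a * D + 4 * (∑ x ∈ box b r \ C', |φ x|) ^ 2) :=
      mul_le_mul_of_nonneg_left hFK (by norm_num)
    have h3 : (0.0103 : ℝ) ^ 2 ≤ 0.000107 := by norm_num
    linarith only [h2, h3, hP2φ, hsmall]
  obtain ⟨β, hβ⟩ : ∃ β : ℝ, β = lam + 1.11 * d * κ ^ 2 := ⟨_, rfl⟩
  rw [← hβ] at hmain
  have hβ0 : 0 ≤ β := by rw [hβ]; positivity
  have haβ : a * β ≤ 1 / 5 := by
    have h1 : 5 * d * (2 * (m : ℝ) + 1) ^ 2 * (lam + 2 * d * κ ^ 2) =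
        5 * (a * (lam + 2 * d * κ ^ 2)) := by rw [ha]; ring
    rw [h1] at hcond
    have h2 : β ≤ lam + 2 * d * κ ^ 2 := by
      rw [hβ]
      have h5 : 0 ≤ (d : ℝ) * κ ^ 2 := mul_nonneg (by linarith only [hd']) (sq_nonneg κ)
      linarith only [h5]
    have h3 : a * β ≤ a * (lam + 2 * d * κ ^ 2) :=
      mul_le_mul_of_nonneg_left h2 (by linarith only [ha1])
    linarith only [h3, hcond]
  obtain ⟨hP5, hD12⟩ := enb_num hP0 hS1 ha1 hβ0 haβ hmain hP2D
  constructor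
  · rw [← hP2, ← hPP]
    have h1 : P ^ 2 ≤ (5 * a * S) ^ 2 := pow_le_pow_left₀ hP0 hP5 2
    have h2 : (5 * a * S) ^ 2 = 25 * d ^ 2 * (2 * (m : ℝ) + 1) ^ 4 * C.card := by
      rw [← hSS, ha]
      ring
    rw [h2] at h1
    exact h1
  · have hgd : gd (fun x => ψ x / ω x) (box b (r + 1)) = D := by rw [hD, hφ]
    rw [hgd]
    rw [hSS, ha] at hD12
    linarith only [hD12]

end Pool.Agent.LE.CL.H70
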